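import Pool.Agent.Work.MLC.ShpB90
import Pool.Agent.Work.MLC.ShpN24

set_option autoImplicit false

/-! # The Mandelbrot set is locally connected at quasi-every infinitely renormalizable angle

`ψ` is the Riemann map of the complement of the Mandelbrot set `M`. Of the infinitely renormalizable
angles `θ` in `[0, 1)`, those at which `ψ` has no limit or `M` is not locally connected are a null
set for the gauge `1 / log (1 / t)` (so they have zero logarithmic capacity), and the others are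
not. -/

namespace Pool.Agent.Work.MLC.Hand.QuasiEvery90

open N62a1eb23 Set Filter Topology

/-- `α`, `β` are the angles of the wake of a hyperbolic component of period `m` (of its root):
`0 ≤ α < β ≤ 1`, both have exact period `m` under doubling modulo `1`, and for every `θ` between `α`
and `β` and every `i` the points `2 ^ i * α`, `2 ^ i * β` of the circle are in the same component of
the circle minus the two points `θ / 2`, `(θ + 1) / 2`. -/
structure Wake (m : ℕ) (α β : ℝ) : Prop where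
  pos : 0 < m
  nonneg : 0 ≤ α
  lt : α < β
  le_one : β ≤ 1
  per : ∃ a b : ℤ, (2 ^ m - 1) * α = a ∧ (2 ^ m - 1) * β = b
  exact : ∀ d, 0 < d → d < m →
    (¬ ∃ a : ℤ, (2 ^ d - 1) * α = a) ∧ ¬ ∃ b : ℤ, (2 ^ d - 1) * β = b
  side : ∀ θ, α < θ → θ < β → ∀ i : ℕ, ∃ j k l : ℤ,
    (θ + j) / 2 < 2 ^ i * α + k ∧ 2 ^ i * α + k < (θ + j + 1) / 2 ∧
    (θ + j) / 2 < 2 ^ i * β + l ∧ 2 ^ i * β + l < (θ + j + 1) / 2

/-- the angles of the small copy of the Mandelbrot set with the wake `α`, `β` (Douady's tuning): in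
an infinite binary expansion replace the digits `0` and `1` by the periods (of length `m`) of the
binary expansions of `α` and `β` -/
def tuned (m : ℕ) (α β : ℝ) : Set ℝ :=
  {θ | ∃ e : ℕ → ℝ, (∀ i, e i = α ∨ e i = β) ∧
    HasSum (fun i => (2 ^ m - 1) * e i / 2 ^ (m * (i + 1))) θ}

/-- infinitely renormalizable angles: in the small copies of arbitrarily large periods -/
def InfRen (θ : ℝ) : Prop := ∀ N : ℕ, ∃ m ≥ N, ∃ α β : ℝ, Wake m α β ∧ θ ∈ tuned m α β

/-- `ψ` has a limit `c` at `exp (2 π i θ)` (unrestricted, from `{1 < |z|}`) and the Mandelbrot set is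
locally connected at `c`: every neighbourhood of `c` contains a compact connected subset of the
Mandelbrot set which is a neighbourhood of `c` in the Mandelbrot set -/
def Good (ψ : ℂ → ℂ) (θ : ℝ) : Prop := ∃ c ∈ mandelbrotSet,
  Tendsto ψ (𝓝[{z | 1 < ‖z‖}] (Complex.exp (2 * Real.pi * θ * Complex.I))) (𝓝 c) ∧
  ∀ U ∈ 𝓝 c, ∃ K ⊆ mandelbrotSet ∩ U, IsCompact K ∧ IsConnected K ∧ K ∈ 𝓝[mandelbrotSet] c

/-- a null set for the gauge `1 / log (1 / t)`: for every `ε` it is covered by intervals with lengths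
`l i` in `(0, 1)` such that the sum of `1 / log (1 / l i)` is less than `ε` -/
def LogNull (E : Set ℝ) : Prop := ∀ ε > 0, ∃ a l : ℕ → ℝ, (∀ i, 0 < l i ∧ l i < 1) ∧
  E ⊆ (⋃ i, Icc (a i) (a i + l i)) ∧ Summable (fun i => 1 / Real.log (1 / l i)) ∧
  ∑' i, 1 / Real.log (1 / l i) < ε

/-! ### comparison with the definitions of the proof -/

lemma wake_iff {m : ℕ} {α β : ℝ} : Wake m α β ↔ Pool.Agent.Work.MLC.Shp.Wake m α β := by
  constructor
  · intro h
    refine ⟨h.pos, h.nonneg, h.lt, h.le_one, ⟨_, h.per.choose_spec.choose_spec.1⟩,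
      ⟨_, h.per.choose_spec.choose_spec.2⟩, fun d h0 h1 => (h.exact d h0 h1).1,
      fun d h0 h1 => (h.exact d h0 h1).2, fun θ h0 h1 i => ?_⟩
    obtain ⟨j, k, l, h2, h3, h4, h5⟩ := h.side θ h0 h1 i
    refine ⟨j, -k, -l, ?_, ?_, ?_, ?_⟩ <;> push_cast <;> linarith
  · intro h
    obtain ⟨a, ha⟩ := h.per
    obtain ⟨b, hb⟩ := h.per'
    refine ⟨h.pos, h.nonneg, h.lt, h.le_one, ⟨a, b, ha, hb⟩,
      fun d h0 h1 => ⟨h.exact d h0 h1, h.exact' d h0 h1⟩, fun θ h0 h1 i => ?_⟩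
    obtain ⟨j, k, l, h2, h3, h4, h5⟩ := h.side θ h0 h1 i
    refine ⟨j, -k, -l, ?_, ?_, ?_, ?_⟩ <;> push_cast <;> linarith

lemma infRen_iff {θ : ℝ} : InfRen θ ↔ Pool.Agent.Work.MLC.Shp.InfRen θ := by
  constructor
  · intro h N
    obtain ⟨m, hm, α, β, hW, hT⟩ := h N
    exact ⟨m, hm, α, β, wake_iff.1 hW, hT⟩
  · intro h N
    obtain ⟨m, hm, α, β, hW, hT⟩ := h N
    exact ⟨m, hm, α, β, wake_iff.2 hW, hT⟩

lemma logNull_iff {E : Set ℝ} : LogNull E ↔ Pool.Agent.Work.MLC.Shp.LogNull E := by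
  constructor
  · intro h ε hε
    obtain ⟨a, l, h1, h2, h3, h4⟩ := h ε hε
    refine ⟨a, fun i => a i + l i, fun i => ⟨by linarith [(h1 i).1], by linarith [(h1 i).2]⟩, h2,
      ?_, ?_⟩
    · simpa only [add_sub_cancel_left] using h3
    · simpa only [add_sub_cancel_left] using h4
  · intro h ε hε
    obtain ⟨a, b, h1, h2, h3, h4⟩ := h ε hε
    refine ⟨a, fun i => b i - a i, fun i => ⟨by linarith [(h1 i).1], by linarith [(h1 i).2]⟩,
      fun θ hθ => ?_, h3, h4⟩
    obtain ⟨i, hi⟩ := mem_iUnion.1 (h2 hθ)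
    refine mem_iUnion.2 ⟨i, ?_⟩
    show θ ∈ Icc (a i) (a i + (b i - a i))
    rw [add_sub_cancel]
    exact hi

/-- There is a conformal map `ψ` of `{1 < |z|}` onto the complement of the Mandelbrot set `M` with
`ψ z / z → 1` at infinity, such that of the infinitely renormalizable angles `θ` in `[0, 1)` those
for which `ψ` has no limit at `exp (2 π i θ)` or `M` is not locally connected at this limit are a
null set for the gauge `1 / log (1 / t)`, and the others are not a null set. -/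
theorem result : ∃ ψ : ℂ → ℂ, DifferentiableOn ℂ ψ {z | 1 < ‖z‖} ∧
    BijOn ψ {z | 1 < ‖z‖} mandelbrotSetᶜ ∧
    Tendsto (fun z => ψ z / z) (Bornology.cobounded ℂ) (𝓝 1) ∧
    LogNull {θ | θ ∈ Ico (0 : ℝ) 1 ∧ InfRen θ ∧ ¬ Good ψ θ} ∧
    ¬ LogNull {θ | θ ∈ Ico (0 : ℝ) 1 ∧ InfRen θ ∧ Good ψ θ} := by
  obtain ⟨E, hE, h⟩ := Pool.Agent.Work.MLC.Shp.cap_thm
  have hbad : LogNull {θ | θ ∈ Ico (0 : ℝ) 1 ∧ InfRen θ ∧
      ¬ Good Pool.Agent.Work.MLC.Psi θ} := by
    refine logNull_iff.2 (hE.mono ?_)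
    rintro θ ⟨hθ, hR, hG⟩
    by_contra hcon
    exact hG (h θ hθ (infRen_iff.1 hR) hcon)
  refine ⟨Pool.Agent.Work.MLC.Psi, Pool.Agent.Work.MLC.differentiableOn_Psi,
    Pool.Agent.Work.MLC.bijOn_Psi, Pool.Agent.Work.MLC.tendsto_Psi_div, hbad, fun hgood => ?_⟩
  refine Pool.Agent.Work.MLC.Shp.not_null_infRen (logNull_iff.2
    (((logNull_iff.1 hbad).union (logNull_iff.1 hgood)).mono ?_))
  rintro θ ⟨hθ, hR⟩
  by_cases hG : Good Pool.Agent.Work.MLC.Psi θ
  · exact Or.inr ⟨hθ, infRen_iff.2 hR, hG⟩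
  · exact Or.inl ⟨hθ, infRen_iff.2 hR, hG⟩

end Pool.Agent.Work.MLC.Hand.QuasiEvery90
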